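import Mathlib

namespace Pool.Agent.Results.MP_6fb3b3_lc.Exact

open Finset

/-- the envelopes `(d, i, j)` of a protocol: some contract is at `i` on day `d` and at `j` on
day `d + 1` -/
def env {N : ℕ} (P : Fin N → Equiv.Perm (Fin N)) : Finset (Fin N × Fin N × Fin N) :=
  {t | ∃ n d', d'.val = t.1.val + 1 ∧ P n t.1 = t.2.1 ∧ P n d' = t.2.2}

lemma mem_env {M : ℕ} (P : Fin (M + 1) → Equiv.Perm (Fin (M + 1))) (n) (d : Fin M) :
    (d.castSucc, P n d.castSucc, P n d.succ) ∈ env P := by
  simp only [env, mem_filter, mem_univ, true_and]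
  exact ⟨n, d.succ, by simp, rfl, rfl⟩

lemma lower (m : ℕ) (P : Fin (m + 3) → Equiv.Perm (Fin (m + 3)))
    (hP : ∀ n, P n (Fin.last _) = n) : 4 * m + 6 ≤ (env P).card := by
  classical
  -- two occupied places on every inner day
  let a : Fin (m + 3) → Bool → Fin (m + 3) := fun d s => if s then P 0 d else P (P 0 d) d
  have ha (d) (hd : d ≠ Fin.last _) : a d true ≠ a d false := fun e =>
    hd ((P (P 0 d)).injective (e.symm.trans (hP _).symm))
  let G : (Fin m × Bool → ℚ) → Fin (m + 3) → Fin (m + 3) → ℚ := fun g d i =>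
    ∑ x, if x.1.val + 1 = d.val ∧ a d x.2 = i then g x else 0
  let Ψ : ((Fin m × Bool → ℚ) × (Fin (m + 3) → ℚ) × (Fin (m + 3) → ℚ)) →ₗ[ℚ] (env P → ℚ) :=
    { toFun := fun x t => if h : t.1.1.val + 1 < m + 2 then
          G x.1 ⟨t.1.1.val + 1, by omega⟩ t.1.2.2 - G x.1 t.1.1 t.1.2.1 + x.2.1 t.1.2.2 +
            (if t.1.1 = 0 then x.2.1 t.1.2.1 else 0) else x.2.2 t.1.2.2
      map_add' := fun x y => by
        funext t
        simp only [G, Prod.fst_add, Prod.snd_add, Pi.add_apply, ite_add_zero, sum_add_distrib]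
        split_ifs <;> ring
      map_smul' := fun c x => by
        funext t
        simp only [G, Prod.smul_fst, Prod.smul_snd, Pi.smul_apply, smul_eq_mul, RingHom.id_apply,
          ← mul_ite_zero, ← mul_sum]
        split_ifs <;> ring }
  have inj : Function.Injective Ψ := by
    rw [injective_iff_map_eq_zero]
    rintro ⟨g, c, h⟩ H
    have H1 (n) (d : Fin (m + 2)) := congrFun H ⟨_, mem_env P n d⟩
    have hh : h = 0 := funext fun n => by simpa [Ψ, hP] using H1 n (Fin.last _)
    let c' (n) (d : ℕ) : ℚ := if hd : d < m + 3 then c (P n ⟨d, hd⟩) else 0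
    have H2 (n) (k : ℕ) : ∀ hk : k < m + 1, G g ⟨k + 1, by omega⟩ (P n ⟨k + 1, by omega⟩) +
        ∑ d ∈ range (k + 2), c' n d = 0 := by
      induction k with
      | zero =>
        intro hk
        have := H1 n 0
        simp [Ψ, G] at this
        simp [sum_range_succ, c', G]
        linear_combination this
      | succ k ih =>
        intro hk
        have := H1 n ⟨k + 1, by omega⟩
        simp only [Ψ, LinearMap.coe_mk, AddHom.coe_mk, Fin.castSucc_mk, Fin.succ_mk,
          show k + 1 + 1 < m + 2 by omega, dif_pos, Fin.mk_eq_zero, Nat.succ_ne_zero, if_false,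
          Pi.zero_apply] at this
        rw [sum_range_succ, show c' n (k + 2) = _ from dif_pos (by omega)]
        linear_combination this + ih (by omega)
    have H3 (n) : ∑ i, c i = c n := by
      have := H2 n m (by omega)
      rw [show G g _ _ = 0 from sum_eq_zero fun x _ => if_neg fun e => by
        have := x.1.2
        have := e.1
        simp at this
        omega, zero_add] at this
      rw [← Equiv.sum_comp (P n), Fin.sum_univ_castSucc, hP, add_eq_right, ← this,
        ← Fin.sum_univ_eq_sum_range]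
      exact sum_congr rfl fun d _ => by simp [c', show d.val < m + 3 by omega]; rfl
    have hc : c = 0 := by
      have : ∑ i, c i = 0 := by
        have := sum_congr rfl fun n (_ : n ∈ univ) => H3 n
        simp only [sum_const, card_univ, Fintype.card_fin, nsmul_eq_mul] at this
        push_cast at this
        have : ((m : ℚ) + 2) * ∑ i, c i = 0 := by linear_combination this
        exact (mul_eq_zero.1 this).resolve_left (by positivity)
      exact funext fun n => (H3 n).symm.trans this
    have hg : g = 0 := funext fun ⟨k, s⟩ => by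
      have e : G g ⟨k + 1, by omega⟩ (a ⟨k + 1, by omega⟩ s) = g (k, s) := by
        refine (sum_eq_single (k, s) ?_ (by simp)).trans (by simp)
        rintro ⟨k', s'⟩ - hne
        refine if_neg fun e => hne ?_
        obtain rfl : k' = k := Fin.ext (by simpa using e.1)
        have := ha ⟨k' + 1, by omega⟩ (by simp [Fin.ext_iff]; omega)
        cases s <;> cases s' <;> simp_all
      rw [← e]
      cases s
      · simpa [c', hc, a] using H2 (P 0 ⟨k + 1, by omega⟩) k (by omega)
      · simpa [c', hc, a] using H2 0 k (by omega)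
    simp [hh, hc, hg]
  have := LinearMap.finrank_le_finrank_of_injective inj
  simp at this
  omega

/-- contract `n` visits `0, …, n - 1, n + 1, …, N - 1, n` -/
def skip (M : ℕ) (n : Fin (M + 1)) : Equiv.Perm (Fin (M + 1)) :=
  finSuccEquivLast.trans (finSuccEquiv' n).symm

lemma skip_val {M : ℕ} (n d : Fin (M + 1)) :
    (skip M n d).val = if d.val = M then n.val else if d.val < n.val then d.val else d.val + 1 := by
  induction d using Fin.lastCases with
  | last => simp [skip]
  | cast d =>
    have := d.2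
    simp only [skip, Equiv.trans_apply, finSuccEquivLast_castSucc, finSuccEquiv'_symm_some,
      Fin.succAbove, Fin.lt_def, Fin.val_castSucc, if_neg this.ne]
    split_ifs <;> rfl

lemma upper (m : ℕ) : (env (skip (m + 1))).card ≤ 4 * m + 2 := by
  let f : (Fin m × Fin 3) ⊕ Fin (m + 2) → Fin (m + 2) × Fin (m + 2) × Fin (m + 2)
    | .inl (d, s) => (⟨d, by omega⟩, ⟨d + s / 2, by omega⟩, ⟨d + 1 + (s + 1) / 2, by omega⟩)
    | .inr n => (⟨m, by omega⟩, skip _ n ⟨m, by omega⟩, n)
  have : env (skip (m + 1)) ⊆ univ.image f := by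
    rintro ⟨d, i, j⟩ ht
    simp only [env, mem_filter, mem_univ, true_and] at ht
    obtain ⟨n, d', hd, rfl, rfl⟩ := ht
    simp only [mem_image, mem_univ, true_and]
    have := d'.2
    by_cases e : d.val = m
    · exact ⟨.inr n, by simp [f, Fin.ext_iff, skip_val, hd, e]⟩
    · have h1 : d.val ≠ m + 1 := by omega
      rcases lt_trichotomy (d.val + 1) n.val with h | h | h
      · exact ⟨.inl (⟨d, by omega⟩, 0), by simp [f, Fin.ext_iff, skip_val, hd, e, h1, h]; omega⟩
      · exact ⟨.inl (⟨d, by omega⟩, 1), by simp [f, Fin.ext_iff, skip_val, hd, e, h1, ← h]⟩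
      · exact ⟨.inl (⟨d, by omega⟩, 2), by
          simp [f, Fin.ext_iff, skip_val, hd, e, h1, h.not_gt]; omega⟩
  refine (card_le_card this).trans (card_image_le.trans ?_)
  simp
  omega

theorem result (M : ℕ) (hM : 1 ≤ M) :
    IsLeast {k | ∃ P : Fin (M + 1) → Equiv.Perm (Fin (M + 1)),
      (∀ n, P n (Fin.last M) = n) ∧ (env P).card = k} (4 * (M + 1) - 6) := by
  obtain ⟨m, rfl⟩ := Nat.exists_eq_add_of_le' hM
  have low : ∀ P : Fin (m + 2) → Equiv.Perm (Fin (m + 2)), (∀ n, P n (Fin.last _) = n) →
      4 * m + 2 ≤ (env P).card := by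
    intro P hP
    cases m with
    | succ m => exact lower m P hP
    | zero =>
      refine one_lt_card.2 ⟨_, mem_env P 0 0, _, mem_env P 1 0, fun e => ?_⟩
      have := (Prod.mk.inj (Prod.mk.inj e).2).2
      exact absurd ((hP 0).symm.trans (this.trans (hP 1))) (by decide)
  have hs (n) : skip (m + 1) n (Fin.last _) = n := by simp [skip]
  rw [show 4 * (m + 1 + 1) - 6 = 4 * m + 2 by omega]
  exact ⟨⟨_, hs, (upper m).antisymm (low _ hs)⟩, fun _ ⟨P, hP, e⟩ => e ▸ low P hP⟩

end Pool.Agent.Results.MP_6fb3b3_lc.Exact
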